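import Mathlib

/-!
# Colourings of elementary abelian groups
-/

namespace Q6.ThreeCol

open Equiv

/-- The frame: the zero vector and the standard basis vectors. -/
def fr {p n : ℕ} (i : Fin (n + 1)) : Fin n → ZMod p :=
  Fin.cases 0 (fun j => Pi.single j 1) i

/-- Barycentric coordinates. -/
def bar {p n : ℕ} (x : Fin n → ZMod p) : Fin (n + 1) → ZMod p :=
  Fin.cons (1 - ∑ i, x i) x

theorem bar_zero {p n : ℕ} (x : Fin n → ZMod p) : bar x 0 = 1 - ∑ i, x i := rfl

theorem bar_succ {p n : ℕ} (x : Fin n → ZMod p) (i : Fin n) : bar x i.succ = x i := rfl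

theorem bar_heap {p n : ℕ} (x y z : Fin n → ZMod p) :
    bar (x - y + z) = bar x - bar y + bar z := by
  funext i
  refine Fin.cases ?_ (fun j => ?_) i
  · simp only [bar_zero, Pi.add_apply, Pi.sub_apply, Finset.sum_add_distrib,
      Finset.sum_sub_distrib]
    ring
  · rfl

theorem bar_fr {p n : ℕ} (i : Fin (n + 1)) : bar (fr i : Fin n → ZMod p) = Pi.single i 1 := by
  funext j
  refine Fin.cases ?_ (fun i => ?_) i
  · refine Fin.cases ?_ (fun j => ?_) j
    · rw [bar_zero, Pi.single_eq_same]
      show (1 : ZMod p) - ∑ i, (0 : Fin n → ZMod p) i = 1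
      simp
    · rw [bar_succ, Pi.single_eq_of_ne (Fin.succ_ne_zero j)]
      rfl
  · refine Fin.cases ?_ (fun j => ?_) j
    · rw [bar_zero, Pi.single_eq_of_ne (Fin.succ_ne_zero i).symm]
      show (1 : ZMod p) - ∑ k, (Pi.single i 1 : Fin n → ZMod p) k = 0
      rw [Finset.sum_pi_single']
      simp
    · rw [bar_succ]
      show (Pi.single i 1 : Fin n → ZMod p) j = (Pi.single i.succ 1 : Fin (n + 1) → ZMod p) j.succ
      rw [Pi.single_apply, Pi.single_apply]
      simp only [Fin.succ_inj]

theorem bar_inj {p n : ℕ} {x y : Fin n → ZMod p} (h : bar x = bar y) : x = y := by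
  funext i
  have := congrFun h i.succ
  rwa [bar_succ, bar_succ] at this

theorem bar_surj {p n : ℕ} (y : Fin (n + 1) → ZMod p) (hy : ∑ i, y i = 1) :
    ∃ x : Fin n → ZMod p, bar x = y := by
  refine ⟨fun i => y i.succ, ?_⟩
  funext i
  refine Fin.cases ?_ (fun i => ?_) i
  · rw [bar_zero]
    rw [Fin.sum_univ_succ] at hy
    rw [← hy]
    ring
  · rfl

/-- A set containing the frame and closed under the heap operation is everything. -/
theorem span_all {p n : ℕ} [NeZero p] {D : Set (Fin n → ZMod p)} (h0 : ∀ i, fr i ∈ D)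
    (h1 : ∀ x ∈ D, ∀ y ∈ D, ∀ z ∈ D, x - y + z ∈ D) (x : Fin n → ZMod p) : x ∈ D := by
  let S : AddSubmonoid (Fin n → ZMod p) :=
    { carrier := {v | ∀ y ∈ D, y + v ∈ D}
      zero_mem' := by
        intro y hy
        rw [add_zero]
        exact hy
      add_mem' := by
        intro a b ha hb y hy
        rw [← add_assoc]
        exact hb _ (ha _ hy) }
  have hS : ∀ i : Fin n, (Pi.single i 1 : Fin n → ZMod p) ∈ S := by
    intro i y hy
    have h2 := h1 y hy (fr 0) (h0 0) (fr i.succ) (h0 i.succ)
    have h3 : (fr 0 : Fin n → ZMod p) = 0 := rfl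
    rw [h3, sub_zero] at h2
    exact h2
  have hx : x = ∑ i, (x i).val • (Pi.single i 1 : Fin n → ZMod p) := by
    funext j
    rw [Finset.sum_apply]
    have h3 : ∀ i, ((x i).val • (Pi.single i 1 : Fin n → ZMod p)) j = if i = j then x j else 0 := by
      intro i
      rw [Pi.smul_apply, Pi.single_apply]
      by_cases h : i = j
      · subst h
        simp
      · rw [if_neg h, if_neg (Ne.symm h), smul_zero]
    simp only [h3]
    simp
  have hxS : x ∈ S := by
    rw [hx]
    exact AddSubmonoid.sum_mem _ fun i _ => AddSubmonoid.nsmul_mem _ (hS i) _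
  have h4 := hxS _ (h0 0)
  have h3 : (fr 0 : Fin n → ZMod p) = 0 := rfl
  rw [h3, zero_add] at h4
  exact h4

/-- The action on barycentric coordinates. -/
theorem bar_map {p n : ℕ} [NeZero p] {g : (Fin n → ZMod p) → (Fin n → ZMod p)}
    (hg : ∀ x y z, g (x - y + z) = g x - g y + g z) {σ : Fin (n + 1) → Fin (n + 1)}
    (hσ : Function.Injective σ) (h : ∀ i, g (fr i) = fr (σ i)) (x : Fin n → ZMod p)
    (i : Fin (n + 1)) : bar (g x) (σ i) = bar x i := by
  have key : x ∈ {x : Fin n → ZMod p | ∀ i, bar (g x) (σ i) = bar x i} := by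
    apply span_all
    · intro j i
      rw [h, bar_fr, bar_fr, Pi.single_apply, Pi.single_apply]
      simp only [hσ.eq_iff]
    · intro x hx y hy z hz i
      rw [hg, bar_heap, bar_heap]
      show bar (g x) (σ i) - bar (g y) (σ i) + bar (g z) (σ i) = bar x i - bar y i + bar z i
      rw [hx i, hy i, hz i]
  exact key i

/-- The general colouring lemma. -/
theorem family {p n : ℕ} [Fact p.Prime] (F : Finset (Finset (Fin (n + 1))))
    (hcard : F.card ≠ n + 1)
    (h1 : ∀ A ∈ F, 2 ≤ A.card ∧ ∃ y : Fin (n + 1) → ZMod p, ∑ i, y i = 1 ∧ ∀ i, y i ≠ 0 ↔ i ∈ A)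
    (h2 : ∀ σ : Perm (Fin (n + 1)), (∀ A ∈ F, ∃ A' ∈ F, ∀ i, i ∈ A ↔ σ i ∈ A') →
      ∀ i, σ (σ i) = i) :
    ∃ γ : (Fin n → ZMod p) → Fin 3,
      (Nat.card {x // γ x = 0} ≠ Nat.card {x // γ x = 1}) ∧
      ∀ g : Perm (Fin n → ZMod p), (∀ x y z, g (x - y + z) = g x - g y + g z) →
        (∀ x, γ (g x) = γ x) → ∀ x, g (g x) = x := by
  classical
  have hp : p.Prime := Fact.out
  have hnz : NeZero p := ⟨hp.ne_zero⟩
  have hone : (1 : ZMod p) ≠ 0 := one_ne_zero
  -- the points of the family
  have hpt : ∀ A : F, ∃ x : Fin n → ZMod p, ∀ i, bar x i ≠ 0 ↔ i ∈ A.1 := by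
    intro A
    obtain ⟨-, y, hy, hyA⟩ := h1 A.1 A.2
    obtain ⟨x, hx⟩ := bar_surj y hy
    exact ⟨x, by rw [hx]; exact hyA⟩
  choose pt hpt using hpt
  have hptinj : Function.Injective pt := by
    intro A B hAB
    apply Subtype.ext
    ext i
    rw [← hpt A, ← hpt B, hAB]
  have hfrinj : Function.Injective (fr : Fin (n + 1) → (Fin n → ZMod p)) := by
    intro i j hij
    have h3 := congrArg bar hij
    rw [bar_fr, bar_fr] at h3
    have h4 := congrFun h3 i
    rw [Pi.single_eq_same, Pi.single_apply] at h4
    by_contra hne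
    rw [if_neg hne] at h4
    exact hone h4
  have hdisj : ∀ (A : F) i, pt A ≠ fr i := by
    intro A i h
    have hA := (h1 A.1 A.2).1
    have h3 : A.1 ⊆ {i} := by
      intro j hj
      rw [← hpt A, h, bar_fr, Pi.single_apply] at hj
      by_contra hne
      rw [Finset.mem_singleton] at hne
      rw [if_neg hne] at hj
      exact hj rfl
    have h4 := Finset.card_le_card h3
    rw [Finset.card_singleton] at h4
    omega
  let γ : (Fin n → ZMod p) → Fin 3 := fun x =>
    if ∃ i, fr i = x then 0 else if ∃ A, pt A = x then 1 else 2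
  have γ0 : ∀ x, γ x = 0 ↔ ∃ i, fr i = x := by
    intro x
    show (if ∃ i, fr i = x then (0 : Fin 3) else if ∃ A, pt A = x then 1 else 2) = 0 ↔ _
    split_ifs with h3 h4
    · exact ⟨fun _ => h3, fun _ => rfl⟩
    · exact ⟨fun h => absurd h (by decide), fun h => absurd h h3⟩
    · exact ⟨fun h => absurd h (by decide), fun h => absurd h h3⟩
  have γ1 : ∀ x, γ x = 1 ↔ ∃ A, pt A = x := by
    intro x
    show (if ∃ i, fr i = x then (0 : Fin 3) else if ∃ A, pt A = x then 1 else 2) = 1 ↔ _
    split_ifs with h3 h4
    · refine ⟨fun h => absurd h (by decide), ?_⟩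
      rintro ⟨A, hA⟩
      obtain ⟨i, hi⟩ := h3
      exact absurd (hA.trans hi.symm) (hdisj A i)
    · exact ⟨fun _ => h4, fun _ => rfl⟩
    · exact ⟨fun h => absurd h (by decide), fun h => absurd h h4⟩
  refine ⟨γ, ?_, ?_⟩
  · have e1 : Nat.card {x // γ x = 0} = n + 1 := by
      have h3 : Nat.card (Fin (n + 1)) = Nat.card {x // γ x = 0} := by
        apply Nat.card_congr
        refine Equiv.ofBijective (fun i => ⟨fr i, (γ0 _).2 ⟨i, rfl⟩⟩) ⟨?_, ?_⟩
        · intro i j hij
          exact hfrinj (congrArg Subtype.val hij)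
        · rintro ⟨x, hx⟩
          obtain ⟨i, hi⟩ := (γ0 x).1 hx
          exact ⟨i, Subtype.ext hi⟩
      rw [← h3, Nat.card_eq_fintype_card, Fintype.card_fin]
    have e2 : Nat.card {x // γ x = 1} = F.card := by
      have h3 : Nat.card F = Nat.card {x // γ x = 1} := by
        apply Nat.card_congr
        refine Equiv.ofBijective (fun A => ⟨pt A, (γ1 _).2 ⟨A, rfl⟩⟩) ⟨?_, ?_⟩
        · intro i j hij
          exact hptinj (congrArg Subtype.val hij)
        · rintro ⟨x, hx⟩
          obtain ⟨i, hi⟩ := (γ1 x).1 hx
          exact ⟨i, Subtype.ext hi⟩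
      rw [← h3, Nat.card_eq_fintype_card, Fintype.card_coe]
    rw [e1, e2]
    exact hcard.symm
  · intro g hg hγ
    have hσ : ∀ i : Fin (n + 1), ∃ j : Fin (n + 1), g (fr i) = fr j := by
      intro i
      have h3 : γ (g (fr i)) = 0 := by
        rw [hγ]
        exact (γ0 _).2 ⟨i, rfl⟩
      obtain ⟨j, hj⟩ := (γ0 _).1 h3
      exact ⟨j, hj.symm⟩
    choose σ hσ using hσ
    have hσinj : Function.Injective σ := by
      intro i j hij
      apply hfrinj
      apply g.injective
      rw [hσ, hσ, hij]
    have hbar := bar_map hg hσinj hσ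
    let τ : Perm (Fin (n + 1)) := Equiv.ofBijective σ (Finite.injective_iff_bijective.1 hσinj)
    have hτ := h2 τ (by
      intro A hA
      have h3 : γ (g (pt ⟨A, hA⟩)) = 1 := by
        rw [hγ]
        exact (γ1 _).2 ⟨_, rfl⟩
      obtain ⟨⟨A', hA'⟩, hx⟩ := (γ1 _).1 h3
      refine ⟨A', hA', fun i => ?_⟩
      show i ∈ A ↔ σ i ∈ A'
      have e1 := hpt ⟨A, hA⟩ i
      have e2 := hpt ⟨A', hA'⟩ (σ i)
      rw [← e1, ← e2, hx, hbar])
    have hσσ : ∀ i, σ (σ i) = i := hτ
    intro x
    apply bar_inj
    funext i
    have e1 := hbar (g x) (σ i)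
    have e2 := hbar x i
    rw [hσσ] at e1
    rw [e1, e2]

/-- Nonzero coefficients with prescribed sum. -/
theorem exists_coeff {p : ℕ} [Fact p.Prime] (hp : 3 ≤ p) (k : ℕ) (hk : 2 ≤ k) :
    ∀ s : ZMod p, ∃ c : ℕ → ZMod p, (∀ i, c i ≠ 0) ∧ ∑ i ∈ Finset.range k, c i = s := by
  induction k, hk using Nat.le_induction with
  | base =>
    intro s
    have h2 : (2 : ZMod p) ≠ 0 := by
      intro h
      have h3 : ((2 : ℕ) : ZMod p) = 0 := by exact_mod_cast h
      rw [ZMod.natCast_eq_zero_iff] at h3
      exact absurd (Nat.le_of_dvd (by norm_num) h3) (by omega)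
    by_cases hs : s = 1
    · refine ⟨fun i => if i = 0 then 2 else -1, ?_, ?_⟩
      · intro i
        show (if i = 0 then (2 : ZMod p) else -1) ≠ 0
        split_ifs
        · exact h2
        · exact neg_ne_zero.2 one_ne_zero
      · simp [Finset.sum_range_succ, hs]
        ring
    · refine ⟨fun i => if i = 0 then 1 else s - 1, ?_, ?_⟩
      · intro i
        show (if i = 0 then (1 : ZMod p) else s - 1) ≠ 0
        split_ifs
        · exact one_ne_zero
        · exact sub_ne_zero.2 hs
      · simp [Finset.sum_range_succ]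
  | succ k hk ih =>
    intro s
    obtain ⟨c, hc, hs⟩ := ih (s - 1)
    refine ⟨fun i => if i < k then c i else 1, ?_, ?_⟩
    · intro i
      show (if i < k then c i else 1) ≠ 0
      split_ifs
      · exact hc i
      · exact one_ne_zero
    · rw [Finset.sum_range_succ, if_neg (lt_irrefl k)]
      have : ∑ x ∈ Finset.range k, (if x < k then c x else 1) = ∑ x ∈ Finset.range k, c x := by
        apply Finset.sum_congr rfl
        intro x hx
        rw [if_pos (Finset.mem_range.1 hx)]
      rw [this, hs]
      ring

/-- The initial segment of length `k`. -/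
def seg (n k : ℕ) : Finset (Fin (n + 1)) := Finset.univ.filter (fun i => (i : ℕ) < k)

theorem mem_seg {n k : ℕ} (i : Fin (n + 1)) : i ∈ seg n k ↔ (i : ℕ) < k := by
  simp [seg]

theorem card_seg {n k : ℕ} (hk : k ≤ n + 1) : (seg n k).card = k := by
  have h1 : (seg n k).map Fin.valEmbedding = Finset.range k := by
    ext i
    simp only [Finset.mem_map, mem_seg, Fin.valEmbedding_apply, Finset.mem_range]
    constructor
    · rintro ⟨j, hj, rfl⟩
      exact hj
    · intro hi
      exact ⟨⟨i, by omega⟩, hi, rfl⟩
  rw [← Finset.card_map Fin.valEmbedding, h1, Finset.card_range]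

theorem sum_fin_ite {p n k : ℕ} (hk : k ≤ n + 1) (c : ℕ → ZMod p) :
    ∑ i : Fin (n + 1), (if (i : ℕ) < k then c i else 0) = ∑ i ∈ Finset.range k, c i := by
  rw [Fin.sum_univ_eq_sum_range (fun i => if i < k then c i else 0) (n + 1),
    Finset.sum_ite, Finset.sum_const_zero, add_zero]
  apply Finset.sum_congr _ fun _ _ => rfl
  ext i
  simp only [Finset.mem_filter, Finset.mem_range]
  omega

theorem card_eq_of_perm {n : ℕ} {σ : Perm (Fin (n + 1))} {A B : Finset (Fin (n + 1))}
    (h : ∀ i, i ∈ A ↔ σ i ∈ B) : A.card = B.card := by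
  have h1 : A.map σ.toEmbedding = B := by
    ext j
    simp only [Finset.mem_map, Equiv.coe_toEmbedding]
    constructor
    · rintro ⟨i, hi, rfl⟩
      exact (h i).1 hi
    · intro hj
      refine ⟨σ.symm j, ?_, σ.apply_symm_apply j⟩
      rw [h, σ.apply_symm_apply]
      exact hj
  rw [← h1, Finset.card_map]

/-- The colouring for odd primes. -/
theorem odd_case {p n : ℕ} [Fact p.Prime] (hp : 3 ≤ p) :
    ∃ γ : (Fin n → ZMod p) → Fin 3,
      (Nat.card {x // γ x = 0} ≠ Nat.card {x // γ x = 1}) ∧
      ∀ g : Perm (Fin n → ZMod p), (∀ x y z, g (x - y + z) = g x - g y + g z) →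
        (∀ x, γ (g x) = γ x) → ∀ x, g (g x) = x := by
  apply family ((Finset.Icc 2 (n + 1)).image (seg n))
  · have h := Finset.card_image_le (s := Finset.Icc 2 (n + 1)) (f := seg n)
    rw [Nat.card_Icc] at h
    omega
  · intro A hA
    rw [Finset.mem_image] at hA
    obtain ⟨k, hk, rfl⟩ := hA
    rw [Finset.mem_Icc] at hk
    rw [card_seg hk.2]
    refine ⟨hk.1, ?_⟩
    obtain ⟨c, hc, hs⟩ := exists_coeff hp k hk.1 1
    refine ⟨fun i => if (i : ℕ) < k then c i else 0, ?_, ?_⟩
    · rw [sum_fin_ite hk.2, hs]
    · intro i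
      rw [mem_seg]
      show (if (i : ℕ) < k then c i else 0) ≠ 0 ↔ _
      split_ifs with h
      · exact ⟨fun _ => h, fun _ => hc i⟩
      · exact ⟨fun h' => absurd rfl h', fun h' => absurd h' h⟩
  · intro σ hσ i
    have key : ∀ k, 2 ≤ k → k ≤ n + 1 → ∀ i : Fin (n + 1), (i : ℕ) < k ↔ (σ i : ℕ) < k := by
      intro k h1 h2 i
      obtain ⟨A', hA', h⟩ := hσ (seg n k)
        (Finset.mem_image.2 ⟨k, Finset.mem_Icc.2 ⟨h1, h2⟩, rfl⟩)
      rw [Finset.mem_image] at hA'
      obtain ⟨l, hl, rfl⟩ := hA'
      rw [Finset.mem_Icc] at hl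
      have hc := card_eq_of_perm h
      rw [card_seg h2, card_seg hl.2] at hc
      subst hc
      have := h i
      rwa [mem_seg, mem_seg] at this
    by_cases hi : (i : ℕ) < 2
    · by_cases hn : 2 ≤ n + 1
      · have h1 := key 2 le_rfl hn i
        have h2 := key 2 le_rfl hn (σ i)
        by_contra hne
        have h3 : σ i ≠ i := by
          intro h
          rw [h, h] at hne
          exact hne rfl
        have h4 : σ (σ i) ≠ σ i := fun h => h3 (σ.injective h)
        have e1 : (σ i : ℕ) ≠ i := fun h => h3 (Fin.ext h)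
        have e2 : (σ (σ i) : ℕ) ≠ σ i := fun h => h4 (Fin.ext h)
        have e3 : (σ (σ i) : ℕ) ≠ i := fun h => hne (Fin.ext h)
        omega
      · apply Fin.ext
        have h1 := i.2
        have h2 := (σ (σ i)).2
        omega
    · have hlt := i.2
      have h1 := key i (by omega) (by omega) i
      have h2 := key (i + 1) (by omega) (by omega) i
      have h3 : σ i = i := Fin.ext (by omega)
      rw [h3, h3]

/-- The colouring for the prime two. -/
theorem two_case (n : ℕ) :
    ∃ γ : (Fin n → ZMod 2) → Fin 3,
      (∃ a b : Fin 3, Nat.card {x // γ x = a} ≠ Nat.card {x // γ x = b}) ∧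
      ∀ g : Perm (Fin n → ZMod 2), (∀ x y z, g (x - y + z) = g x - g y + g z) →
        (∀ x, γ (g x) = γ x) → ∀ x, g (g x) = x := by
  rcases Nat.lt_or_ge n 3 with hn | hn
  · -- small dimension
    rcases Nat.lt_or_ge n 2 with hn2 | hn2
    · refine ⟨fun _ => 0, ⟨0, 1, ?_⟩, ?_⟩
      · have e1 : Nat.card {x : Fin n → ZMod 2 // (0 : Fin 3) = 1} = 0 := by
          rw [Nat.card_eq_zero]
          exact Or.inl ⟨fun x => absurd x.2 (by decide)⟩
        rw [e1]
        have : Nonempty {x : Fin n → ZMod 2 // (0 : Fin 3) = 0} := ⟨⟨0, rfl⟩⟩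
        exact Nat.card_pos.ne'
      · intro g _ _ x
        have hcard : Fintype.card (Fin n → ZMod 2) ≤ 2 := by
          rw [Fintype.card_fun, ZMod.card, Fintype.card_fin]
          calc 2 ^ n ≤ 2 ^ 1 := Nat.pow_le_pow_right (by norm_num) (by omega)
            _ = 2 := by norm_num
        by_contra hne
        have h3 : g x ≠ x := by
          intro h
          rw [h, h] at hne
          exact hne rfl
        have h4 : g (g x) ≠ g x := fun h => h3 (g.injective h)
        have h5 : ({x, g x, g (g x)} : Finset (Fin n → ZMod 2)).card = 3 := by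
          rw [Finset.card_eq_three]
          exact ⟨x, g x, g (g x), h3.symm, (Ne.symm hne), h4.symm, rfl⟩
        have h6 := Finset.card_le_univ ({x, g x, g (g x)} : Finset (Fin n → ZMod 2))
        omega
    · have hn' : n = 2 := by omega
      subst hn'
      refine ⟨fun x => if x 1 = 0 then 0 else 1, ⟨0, 2, ?_⟩, ?_⟩
      · have e1 : Nat.card {x : Fin 2 → ZMod 2 // (if x 1 = 0 then (0 : Fin 3) else 1) = 2} = 0 := by
          rw [Nat.card_eq_zero]
          left
          constructor
          rintro ⟨x, hx⟩
          split_ifs at hx <;> exact absurd hx (by decide)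
        rw [e1]
        have : Nonempty {x : Fin 2 → ZMod 2 // (if x 1 = 0 then (0 : Fin 3) else 1) = 0} :=
          ⟨⟨0, by decide⟩⟩
        exact Nat.card_pos.ne'
      · intro g _ hγ x
        have hγ' : ∀ x : Fin 2 → ZMod 2, (g x) 1 = x 1 := by
          intro x
          have h := hγ x
          have h2 : ∀ a : ZMod 2, a = 0 ∨ a = 1 := by decide
          rcases h2 (g x 1) with h3 | h3 <;> rcases h2 (x 1) with h4 | h4 <;>
            simp only [h3, h4] at h ⊢
          · revert h
            decide
          · revert h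
            decide
        by_contra hne
        have h3 : g x ≠ x := by
          intro h
          rw [h, h] at hne
          exact hne rfl
        have h4 : g (g x) ≠ g x := fun h => h3 (g.injective h)
        have e1 := hγ' x
        have e2 := hγ' (g x)
        have key : ∀ x y z : Fin 2 → ZMod 2, y 1 = x 1 → z 1 = y 1 → y ≠ x → z ≠ y → z = x := by
          decide
        exact hne (key x (g x) (g (g x)) e1 e2 h3 h4)
  · have hC : ∃ C : Finset (Fin (n + 1)), (∀ i, i ∈ C ↔ (1 ≤ (i : ℕ) ∧ (i : ℕ) < 4)) := by
      exact ⟨Finset.univ.filter (fun i => 1 ≤ (i : ℕ) ∧ (i : ℕ) < 4), by simp⟩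
    obtain ⟨C, hC⟩ := hC
    have hCcard : C.card = 3 := by
      have h1 : C.map Fin.valEmbedding = {1, 2, 3} := by
        ext i
        simp only [Finset.mem_map, hC, Fin.valEmbedding_apply, Finset.mem_insert,
          Finset.mem_singleton]
        constructor
        · rintro ⟨j, hj, rfl⟩
          omega
        · intro hi
          have hi' : i < n + 1 := by omega
          refine ⟨⟨i, hi'⟩, ?_, rfl⟩
          show 1 ≤ i ∧ i < 4
          omega
      rw [← Finset.card_map Fin.valEmbedding, h1]
      rfl
    have hmain : ∃ γ : (Fin n → ZMod 2) → Fin 3,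
        (Nat.card {x // γ x = 0} ≠ Nat.card {x // γ x = 1}) ∧
        ∀ g : Perm (Fin n → ZMod 2), (∀ x y z, g (x - y + z) = g x - g y + g z) →
          (∀ x, γ (g x) = γ x) → ∀ x, g (g x) = x := by
      apply family (insert C (((Finset.Icc 3 (n + 1)).filter Odd).image (seg n)))
      · have h := Finset.card_image_le (s := (Finset.Icc 3 (n + 1)).filter Odd) (f := seg n)
        have h' := Finset.card_filter_le (Finset.Icc 3 (n + 1)) Odd
        have h'' := Finset.card_insert_le C (((Finset.Icc 3 (n + 1)).filter Odd).image (seg n))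
        rw [Nat.card_Icc] at h'
        omega
      · intro A hA
        rw [Finset.mem_insert, Finset.mem_image] at hA
        rcases hA with rfl | ⟨k, hk, rfl⟩
        · rw [hCcard]
          refine ⟨by norm_num, fun i => if i ∈ A then 1 else 0, ?_, ?_⟩
          · rw [Finset.sum_ite_mem, Finset.univ_inter, Finset.sum_const, hCcard]
            decide
          · intro i
            show (if i ∈ A then (1 : ZMod 2) else 0) ≠ 0 ↔ i ∈ A
            split_ifs with h
            · exact ⟨fun _ => h, fun _ => one_ne_zero⟩
            · exact ⟨fun h' => absurd rfl h', fun h' => absurd h' h⟩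
        · rw [Finset.mem_filter, Finset.mem_Icc] at hk
          rw [card_seg hk.1.2]
          refine ⟨by omega, fun i => if i ∈ seg n k then 1 else 0, ?_, ?_⟩
          · rw [Finset.sum_ite_mem, Finset.univ_inter, Finset.sum_const, card_seg hk.1.2,
              nsmul_eq_mul, mul_one]
            obtain ⟨m, hm⟩ := hk.2
            rw [hm]
            push_cast
            have h2 : (2 : ZMod 2) = 0 := by decide
            rw [h2, zero_mul, zero_add]
          · intro i
            show (if i ∈ seg n k then (1 : ZMod 2) else 0) ≠ 0 ↔ i ∈ seg n k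
            split_ifs with h
            · exact ⟨fun _ => h, fun _ => one_ne_zero⟩
            · exact ⟨fun h' => absurd rfl h', fun h' => absurd h' h⟩
      · intro σ hσ i
        -- large odd segments are preserved
        have key : ∀ k, 5 ≤ k → k ≤ n + 1 → Odd k → ∀ i : Fin (n + 1),
            (i : ℕ) < k ↔ (σ i : ℕ) < k := by
          intro k h1 h2 h3 i
          obtain ⟨A', hA', h⟩ := hσ (seg n k) (Finset.mem_insert_of_mem
            (Finset.mem_image.2 ⟨k, Finset.mem_filter.2 ⟨Finset.mem_Icc.2 ⟨by omega, h2⟩, h3⟩,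
              rfl⟩))
          have hc := card_eq_of_perm h
          rw [card_seg h2] at hc
          rw [Finset.mem_insert, Finset.mem_image] at hA'
          rcases hA' with rfl | ⟨l, hl, rfl⟩
          · omega
          · rw [Finset.mem_filter, Finset.mem_Icc] at hl
            rw [card_seg hl.1.2] at hc
            subst hc
            have := h i
            rwa [mem_seg, mem_seg] at this
        -- the two small sets are permuted
        have key3 : (∀ i : Fin (n + 1), (i : ℕ) < 3 ↔ (σ i : ℕ) < 3) ∨
            (∀ i : Fin (n + 1), (i : ℕ) < 3 ↔ (1 ≤ (σ i : ℕ) ∧ (σ i : ℕ) < 4)) := by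
          obtain ⟨A', hA', h⟩ := hσ (seg n 3) (Finset.mem_insert_of_mem
            (Finset.mem_image.2 ⟨3, Finset.mem_filter.2 ⟨Finset.mem_Icc.2 ⟨by omega, by omega⟩,
              by decide⟩, rfl⟩))
          have hc := card_eq_of_perm h
          rw [card_seg (by omega)] at hc
          rw [Finset.mem_insert, Finset.mem_image] at hA'
          rcases hA' with rfl | ⟨l, hl, rfl⟩
          · right
            intro i
            have := h i
            rwa [mem_seg, hC] at this
          · rw [Finset.mem_filter, Finset.mem_Icc] at hl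
            rw [card_seg hl.1.2] at hc
            subst hc
            left
            intro i
            have := h i
            rwa [mem_seg, mem_seg] at this
        have keyC : (∀ i : Fin (n + 1), (1 ≤ (i : ℕ) ∧ (i : ℕ) < 4) ↔ (σ i : ℕ) < 3) ∨
            (∀ i : Fin (n + 1), (1 ≤ (i : ℕ) ∧ (i : ℕ) < 4) ↔
              (1 ≤ (σ i : ℕ) ∧ (σ i : ℕ) < 4)) := by
          obtain ⟨A', hA', h⟩ := hσ C (Finset.mem_insert_self _ _)
          have hc := card_eq_of_perm h
          rw [hCcard] at hc
          rw [Finset.mem_insert, Finset.mem_image] at hA'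
          rcases hA' with rfl | ⟨l, hl, rfl⟩
          · right
            intro i
            have := h i
            rwa [hC, hC] at this
          · rw [Finset.mem_filter, Finset.mem_Icc] at hl
            rw [card_seg hl.1.2] at hc
            subst hc
            left
            intro i
            have := h i
            rwa [mem_seg, hC] at this
        -- so `{1, 2}` and `{0, 3}` are preserved
        have k12 : ∀ i : Fin (n + 1), (1 ≤ (i : ℕ) ∧ (i : ℕ) < 3) →
            (1 ≤ (σ i : ℕ) ∧ (σ i : ℕ) < 3) := by
          have hlt0 : 0 < n + 1 := by omega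
          have hlt3 : 3 < n + 1 := by omega
          intro i hi
          rcases key3 with h3 | h3 <;> rcases keyC with h4 | h4
          · -- both mapped to the segment: impossible
            exfalso
            have a0 := h3 ⟨0, hlt0⟩
            have a1 := h4 ⟨3, hlt3⟩
            have b := h3 ⟨3, hlt3⟩
            simp only at a0 a1 b
            omega
          · have a := h3 i
            have b := h4 i
            omega
          · have a := h3 i
            have b := h4 i
            omega
          · exfalso
            have a1 := h4 ⟨3, hlt3⟩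
            have b := h3 ⟨3, hlt3⟩
            simp only at a1 b
            omega
        have k03 : ∀ i : Fin (n + 1), ((i : ℕ) = 0 ∨ (i : ℕ) = 3) →
            ((σ i : ℕ) = 0 ∨ (σ i : ℕ) = 3) := by
          have hlt0 : 0 < n + 1 := by omega
          have hlt3 : 3 < n + 1 := by omega
          intro i hi
          rcases key3 with h3 | h3 <;> rcases keyC with h4 | h4
          · exfalso
            have a1 := h4 ⟨3, hlt3⟩
            have b := h3 ⟨3, hlt3⟩
            simp only at a1 b
            omega
          · have a := h3 i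
            have b := h4 i
            omega
          · have a := h3 i
            have b := h4 i
            omega
          · exfalso
            have a1 := h4 ⟨3, hlt3⟩
            have b := h3 ⟨3, hlt3⟩
            simp only at a1 b
            omega
        have fin : ∀ a b : ℕ, ((i : ℕ) = a ∨ (i : ℕ) = b) → ((σ i : ℕ) = a ∨ (σ i : ℕ) = b) →
            ((σ (σ i) : ℕ) = a ∨ (σ (σ i) : ℕ) = b) → σ (σ i) = i := by
          intro a b h1 h2 h3
          by_contra hne
          have h4 : σ i ≠ i := by
            intro h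
            rw [h, h] at hne
            exact hne rfl
          have h5 : σ (σ i) ≠ σ i := fun h => h4 (σ.injective h)
          have e1 : (σ i : ℕ) ≠ i := fun h => h4 (Fin.ext h)
          have e2 : (σ (σ i) : ℕ) ≠ σ i := fun h => h5 (Fin.ext h)
          have e3 : (σ (σ i) : ℕ) ≠ i := fun h => hne (Fin.ext h)
          omega
        by_cases hi : (i : ℕ) < 5
        · by_cases hi4 : (i : ℕ) = 4
          · -- the point 4
            have hlt := i.2
            have h5 := key 5 le_rfl (by omega) (by decide)
            have a := h5 i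
            have b := h5 (σ i)
            have hne : ∀ j : Fin (n + 1), (j : ℕ) < 4 → (σ j : ℕ) < 4 := by
              intro j hj
              by_cases hj' : 1 ≤ (j : ℕ) ∧ (j : ℕ) < 3
              · have := k12 j hj'
                omega
              · have := k03 j (by omega)
                omega
            have hinv : ∀ j : Fin (n + 1), (σ j : ℕ) < 4 → (j : ℕ) < 4 := by
              -- counting: `σ` maps the four smallest points onto themselves
              have hmaps : Set.MapsTo σ (seg n 4) (seg n 4) := by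
                intro j hj
                rw [Finset.mem_coe, mem_seg] at hj ⊢
                exact hne j hj
              have hsurj := Finset.surjOn_of_injOn_of_card_le σ hmaps σ.injective.injOn le_rfl
              intro j hj
              obtain ⟨j', hj', h⟩ := hsurj (Finset.mem_coe.2 ((mem_seg (k := 4) (σ j)).2 hj))
              rw [Finset.mem_coe, mem_seg] at hj'
              rw [← σ.injective h]
              exact hj'
            have c := hinv i
            have d := hinv (σ i)
            have e1 : σ i = i := Fin.ext (by omega)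
            rw [e1, e1]
          · by_cases hi1 : 1 ≤ (i : ℕ) ∧ (i : ℕ) < 3
            · have a := k12 i hi1
              have b := k12 (σ i) a
              exact fin 1 2 (by omega) (by omega) (by omega)
            · have a := k03 i (by omega)
              have b := k03 (σ i) a
              exact fin 0 3 (by omega) (by omega) (by omega)
        · -- large points
          have hlt := i.2
          have hlt1 := (σ i).2
          have hlt2 := (σ (σ i)).2
          obtain ⟨k, hk1, hk2, hk3⟩ : ∃ k, Odd k ∧ 5 ≤ k ∧ ((i : ℕ) = k ∨ (i : ℕ) = k + 1) := by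
            rcases Nat.even_or_odd (i : ℕ) with h | h
            · refine ⟨i - 1, ?_, by obtain ⟨m, hm⟩ := h; omega, Or.inr (by omega)⟩
              obtain ⟨m, hm⟩ := h
              exact ⟨m - 1, by omega⟩
            · exact ⟨i, h, by omega, Or.inl rfl⟩
          have a := key k hk2 (by omega) hk1
          have a1 := a i
          have a2 := a (σ i)
          by_cases hk4 : k + 2 ≤ n + 1
          · have b := key (k + 2) (by omega) hk4 (by
              obtain ⟨m, hm⟩ := hk1
              exact ⟨m + 1, by omega⟩)
            have b1 := b i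
            have b2 := b (σ i)
            exact fin k (k + 1) hk3 (by omega) (by omega)
          · exact fin k (k + 1) hk3 (by omega) (by omega)
    obtain ⟨γ, h1, h2⟩ := hmain
    exact ⟨γ, ⟨0, 1, h1⟩, h2⟩

/-- The colouring lemma for elementary abelian groups. -/
theorem model (p n : ℕ) [Fact p.Prime] :
    ∃ γ : (Fin n → ZMod p) → Fin 3,
      (∃ a b : Fin 3, Nat.card {x // γ x = a} ≠ Nat.card {x // γ x = b}) ∧
      ∀ g : Perm (Fin n → ZMod p), (∀ x y z, g (x - y + z) = g x - g y + g z) →
        (∀ x, γ (g x) = γ x) → ∀ x, g (g x) = x := by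
  have hp : p.Prime := Fact.out
  rcases hp.two_le.eq_or_lt with h | h
  · subst h
    exact two_case n
  · obtain ⟨γ, h1, h2⟩ := odd_case (p := p) (n := n) h
    exact ⟨γ, ⟨0, 1, h1⟩, h2⟩

end Q6.ThreeCol
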