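import Mathlib
import Pool.Agent.Q6.ThreeCol.Model

/-!
# Colourings of solvable permutation groups
-/

namespace Q6.ThreeCol

open Equiv
open scoped commutatorElement

/-- A nontrivial solvable permutation group has a nontrivial normal elementary abelian subgroup. -/
theorem exists_normal {Ω : Type} [Finite Ω] (G : Subgroup (Perm Ω)) (hs : Group.IsSolvable G)
    (hne : G ≠ ⊥) :
    ∃ (p : ℕ) (_ : p.Prime) (N : Subgroup (Perm Ω)), N ≤ G ∧ N ≠ ⊥ ∧
      (∀ g ∈ G, ∀ n ∈ N, g * n * g⁻¹ ∈ N) ∧ (∀ a ∈ N, ∀ b ∈ N, a * b = b * a) ∧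
      ∀ a ∈ N, a ^ p = 1 := by
  classical
  have hex : ∃ n, derivedSeries G n = ⊥ := (Group.isSolvable_def G).1 hs
  obtain ⟨k, hk⟩ : ∃ k, Nat.find hex = k + 1 := by
    apply Nat.exists_eq_succ_of_ne_zero
    intro h0
    have h1 := Nat.find_spec hex
    rw [h0, derivedSeries_zero] at h1
    apply hne
    rw [eq_bot_iff]
    intro g hg
    have h2 : (⟨g, hg⟩ : G) ∈ (⊤ : Subgroup G) := Subgroup.mem_top _
    rw [h1, Subgroup.mem_bot] at h2
    exact congrArg Subtype.val h2
  have hbot : derivedSeries G (k + 1) = ⊥ := by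
    rw [← hk]
    exact Nat.find_spec hex
  have hA : derivedSeries G k ≠ ⊥ := Nat.find_min hex (by omega)
  have hcomm : ∀ a ∈ derivedSeries G k, ∀ b ∈ derivedSeries G k, a * b = b * a := by
    intro a ha b hb
    have h1 : ⁅a, b⁆ ∈ derivedSeries G (k + 1) := by
      rw [derivedSeries_succ]
      exact Subgroup.commutator_mem_commutator ha hb
    rw [hbot, Subgroup.mem_bot, commutatorElement_eq_one_iff_mul_comm] at h1
    exact h1
  obtain ⟨⟨a, ha⟩, ha1'⟩ := Subgroup.ne_bot_iff_exists_ne_one.1 hA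
  have ha1 : a ≠ 1 := fun h => ha1' (Subtype.ext h)
  have hord : orderOf a ≠ 1 := fun h => ha1 (orderOf_eq_one_iff.1 h)
  obtain ⟨p, hp, hpd⟩ := Nat.exists_prime_and_dvd hord
  have hnorm : (derivedSeries G k).Normal := derivedSeries_normal G k
  let N : Subgroup (Perm Ω) :=
    { carrier := {x | ∃ h : x ∈ G, (⟨x, h⟩ : G) ∈ derivedSeries G k ∧ x ^ p = 1}
      one_mem' := ⟨G.one_mem, (derivedSeries G k).one_mem, one_pow p⟩
      mul_mem' := by
        rintro x y ⟨hx, hx1, hx2⟩ ⟨hy, hy1, hy2⟩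
        refine ⟨G.mul_mem hx hy, (derivedSeries G k).mul_mem hx1 hy1, ?_⟩
        have h3 : Commute x y := congrArg Subtype.val (hcomm _ hx1 _ hy1)
        rw [h3.mul_pow, hx2, hy2, one_mul]
      inv_mem' := by
        rintro x ⟨hx, hx1, hx2⟩
        refine ⟨G.inv_mem hx, (derivedSeries G k).inv_mem hx1, ?_⟩
        rw [inv_pow, hx2, inv_one] }
  refine ⟨p, hp, N, ?_, ?_, ?_, ?_, ?_⟩
  · rintro x ⟨hx, -, -⟩
    exact hx
  · intro hN
    have hb : a ^ (orderOf a / p) ∈ derivedSeries G k := (derivedSeries G k).pow_mem ha _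
    have hbp : (a ^ (orderOf a / p)) ^ p = 1 := by
      rw [← pow_mul, Nat.div_mul_cancel hpd, pow_orderOf_eq_one]
    have h1 : ((a ^ (orderOf a / p) : G) : Perm Ω) ∈ N :=
      ⟨(a ^ (orderOf a / p)).2, hb, congrArg Subtype.val hbp⟩
    rw [hN, Subgroup.mem_bot] at h1
    have h2 : a ^ (orderOf a / p) = 1 := Subtype.ext h1
    have h3 := orderOf_dvd_of_pow_eq_one h2
    have h4 : 0 < orderOf a := orderOf_pos a
    have h5 : orderOf a / p < orderOf a := Nat.div_lt_self h4 hp.one_lt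
    have h6 : 0 < orderOf a / p := Nat.div_pos (Nat.le_of_dvd h4 hpd) hp.pos
    exact absurd (Nat.le_of_dvd h6 h3) (by omega)
  · rintro g hg x ⟨hx, hx1, hx2⟩
    refine ⟨G.mul_mem (G.mul_mem hg hx) (G.inv_mem hg), hnorm.conj_mem _ hx1 ⟨g, hg⟩, ?_⟩
    rw [conj_pow, hx2, mul_one, mul_inv_cancel]
  · rintro x ⟨hx, hx1, -⟩ y ⟨hy, hy1, -⟩
    exact congrArg Subtype.val (hcomm _ hx1 _ hy1)
  · rintro x ⟨-, -, hx2⟩
    exact hx2

theorem exists_model0 {p : ℕ} [Fact p.Prime] {M : Type} [AddCommGroup M] [Finite M]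
    [Module (ZMod p) M] : ∃ d : ℕ, Nonempty (M ≃+ (Fin d → ZMod p)) := by
  have hfin : Module.Finite (ZMod p) M := Module.Finite.of_finite
  have hfree : Module.Free (ZMod p) M := inferInstance
  let b := Module.finBasis (ZMod p) M
  exact ⟨_, ⟨b.equivFun.toAddEquiv⟩⟩

theorem exists_model {p : ℕ} [Fact p.Prime] {M : Type} [AddCommGroup M] [Finite M]
    (hM : ∀ x : M, p • x = 0) : ∃ d : ℕ, Nonempty (M ≃+ (Fin d → ZMod p)) :=
  @exists_model0 p _ M _ _ (AddCommGroup.zmodModule hM)

/-- The quotient of an elementary abelian group by a subgroup. -/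
theorem exists_psi {p : ℕ} [Fact p.Prime] {A : Type} [CommGroup A] [Finite A]
    (hA : ∀ a : A, a ^ p = 1) (K : Subgroup A) :
    ∃ (d : ℕ) (ψ : A → (Fin d → ZMod p)), Function.Surjective ψ ∧
      (∀ x y, ψ (x * y) = ψ x + ψ y) ∧ ∀ x, ψ x = 0 ↔ x ∈ K := by
  have hQ : ∀ x : Additive (A ⧸ K), p • x = 0 := by
    intro x
    obtain ⟨a, ha⟩ := QuotientGroup.mk_surjective (Additive.toMul x)
    have h1 : (Additive.toMul x) ^ p = 1 := by
      rw [← ha, ← QuotientGroup.mk_pow, hA, QuotientGroup.mk_one]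
    exact congrArg Additive.ofMul h1
  obtain ⟨d, ⟨e⟩⟩ := exists_model hQ
  refine ⟨d, fun a => e (Additive.ofMul (QuotientGroup.mk a)), ?_, ?_, ?_⟩
  · intro v
    obtain ⟨a, ha⟩ := QuotientGroup.mk_surjective (Additive.toMul (e.symm v))
    refine ⟨a, ?_⟩
    show e (Additive.ofMul (QuotientGroup.mk a)) = v
    rw [ha]
    exact e.apply_symm_apply v
  · intro x y
    show e (Additive.ofMul (QuotientGroup.mk (x * y))) =
      e (Additive.ofMul (QuotientGroup.mk x)) + e (Additive.ofMul (QuotientGroup.mk y))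
    rw [← map_add]
    rfl
  · intro x
    show e (Additive.ofMul (QuotientGroup.mk x)) = 0 ↔ x ∈ K
    rw [EmbeddingLike.map_eq_zero_iff, ← QuotientGroup.eq_one_iff]
    rfl

/-- The orbit of a point under an elementary abelian group is a torsor. -/
theorem exists_phi {p : ℕ} [Fact p.Prime] {Ω : Type} [Finite Ω] {N : Subgroup (Perm Ω)}
    (hc : ∀ a ∈ N, ∀ b ∈ N, a * b = b * a) (hp : ∀ a ∈ N, a ^ p = 1) (b : Ω) :
    ∃ (d : ℕ) (φ : {ω : Ω // ∃ n ∈ N, n b = ω} ≃ (Fin d → ZMod p)),
      ∀ n ∈ N, ∀ x y x' y' : {ω : Ω // ∃ n ∈ N, n b = ω}, n x.1 = x'.1 → n y.1 = y'.1 →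
        φ x' - φ x = φ y' - φ y := by
  let : CommGroup N := { (inferInstance : Group N) with
    mul_comm := fun a b => Subtype.ext (hc a.1 a.2 b.1 b.2) }
  obtain ⟨d, ψ, hψ1, hψ2, hψ3⟩ := exists_psi (p := p) (A := N)
    (fun a => Subtype.ext (hp a.1 a.2)) (MulAction.stabilizer N b)
  have hψone : ψ 1 = 0 := (hψ3 1).2 (Subgroup.one_mem _)
  have hψinv : ∀ x, ψ x⁻¹ = - ψ x := by
    intro x
    have h := hψ2 x x⁻¹
    rw [mul_inv_cancel, hψone] at h
    exact (neg_eq_of_add_eq_zero_right h.symm).symm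
  have hst : ∀ x : N, x ∈ MulAction.stabilizer N b ↔ x.1 b = b := fun x => Iff.rfl
  -- equality of the images of `b`
  have heq : ∀ x y : N, x.1 b = y.1 b ↔ ψ x = ψ y := by
    intro x y
    have h1 : (y⁻¹ * x).1 b = b ↔ x.1 b = y.1 b := by
      show y.1⁻¹ (x.1 b) = b ↔ x.1 b = y.1 b
      rw [Perm.inv_eq_iff_eq]
    rw [← h1, ← hst, ← hψ3, hψ2, hψinv, neg_add_eq_zero, eq_comm]
  have hch : ∀ ω : {ω : Ω // ∃ n ∈ N, n b = ω}, ∃ n : N, n.1 b = ω.1 := by
    rintro ⟨ω, n, hn, h⟩
    exact ⟨⟨n, hn⟩, h⟩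
  choose c hc' using hch
  let φ : {ω : Ω // ∃ n ∈ N, n b = ω} ≃ (Fin d → ZMod p) :=
    Equiv.ofBijective (fun ω => ψ (c ω)) (by
      constructor
      · intro x y hxy
        have h1 := (heq (c x) (c y)).2 hxy
        rw [hc', hc'] at h1
        exact Subtype.ext h1
      · intro v
        obtain ⟨n, hn⟩ := hψ1 v
        refine ⟨⟨n.1 b, n.1, n.2, rfl⟩, ?_⟩
        show ψ (c _) = v
        rw [← hn, ← heq, hc'])
  have hφ : ∀ (n : N) (ω : {ω : Ω // ∃ n ∈ N, n b = ω}), n.1 b = ω.1 → φ ω = ψ n := by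
    intro n ω h
    show ψ (c ω) = ψ n
    rw [← heq, hc', h]
  have hdiff : ∀ (n : N) (x x' : {ω : Ω // ∃ n ∈ N, n b = ω}), n.1 x.1 = x'.1 →
      φ x' - φ x = ψ n := by
    intro n x x' h
    have h1 : φ x' = ψ (n * c x) := by
      apply hφ
      show n.1 ((c x).1 b) = x'.1
      rw [hc', h]
    have h2 : φ x = ψ (c x) := rfl
    rw [h1, h2, hψ2, add_sub_cancel_right]
  refine ⟨d, φ, ?_⟩
  intro n hn x y x' y' h1 h2
  rw [hdiff ⟨n, hn⟩ x x' h1, hdiff ⟨n, hn⟩ y y' h2]

theorem shift_const (f : Fin 3 → ℕ) (x y : Fin 3) (hxy : x ≠ y)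
    (h : ∀ c, f (c - x) = f (c - y)) (a b : Fin 3) : f a = f b := by
  have h0 := h 0
  have h1 := h 1
  have h2 := h 2
  fin_cases x <;> fin_cases y <;> first | exact absurd rfl hxy | skip
  all_goals
    simp only [Fin.isValue, Fin.reduceFinMk, Fin.zero_eta, Fin.mk_one, Fin.reduceSub, sub_zero,
      sub_self] at h0 h1 h2
    fin_cases a <;> fin_cases b <;>
      simp only [Fin.isValue, Fin.reduceFinMk, Fin.zero_eta, Fin.mk_one] <;> omega

/-- The main induction. -/
theorem main (m : ℕ) : ∀ (Ω : Type) [Finite Ω], Nat.card Ω ≤ m → ∀ G : Subgroup (Perm Ω),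
    Group.IsSolvable G → ∃ γ : Ω → Fin 3, ∀ g ∈ G, (∀ ω, γ (g ω) = γ ω) → ∃ k : ℕ, g ^ (2 ^ k) = 1 := by
  classical
  induction m with
  | zero =>
    intro Ω _ hcard G _
    refine ⟨fun _ => 0, fun g _ _ => ⟨0, ?_⟩⟩
    have hc : Nat.card Ω = 0 := by omega
    rw [Nat.card_eq_zero] at hc
    rcases hc with h | h
    · apply Equiv.ext
      intro ω
      exact (h.false ω).elim
    · exact absurd ‹Finite Ω› (not_finite_iff_infinite.2 h)
  | succ m ih =>
    intro Ω _ hcard G hs
    by_cases hG : G = ⊥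
    · refine ⟨fun _ => 0, fun g hg _ => ⟨0, ?_⟩⟩
      rw [hG, Subgroup.mem_bot] at hg
      rw [hg, one_pow]
    obtain ⟨p, hp, N, hNG, hN, hnorm, hcomm, hexp⟩ := exists_normal G hs hG
    have : Fact p.Prime := ⟨hp⟩
    -- the orbits of `N`
    let r : Setoid Ω :=
      { r := fun a b => ∃ n ∈ N, n a = b
        iseqv := ⟨fun a => ⟨1, N.one_mem, rfl⟩,
          fun {a b} ⟨n, hn, h⟩ => ⟨n⁻¹, N.inv_mem hn, by rw [← h]; exact n.symm_apply_apply a⟩,
          fun {a b c} ⟨n, hn, h⟩ ⟨n', hn', h'⟩ => ⟨n' * n, N.mul_mem hn' hn, by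
            rw [← h', ← h]; rfl⟩⟩ }
    let Q := Quotient r
    have hmk : ∀ a b : Ω, (Quotient.mk r a = Quotient.mk r b) ↔ ∃ n ∈ N, n a = b :=
      fun a b => Quotient.eq
    have hfin : Finite Q := Quotient.finite r
    have hlt : Nat.card Q < Nat.card Ω := by
      have hsurj : Function.Surjective (Quotient.mk r) := Quotient.mk_surjective
      have hle := Nat.card_le_card_of_surjective _ hsurj
      rcases hle.lt_or_eq with h | h
      · exact h
      · exfalso
        have hb : Function.Bijective (Quotient.mk r) :=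
          (Nat.bijective_iff_surjective_and_card _).2 ⟨hsurj, h.symm⟩
        apply hN
        rw [eq_bot_iff]
        intro n hn
        rw [Subgroup.mem_bot]
        apply Equiv.ext
        intro ω
        exact (hb.1 ((hmk ω (n ω)).2 ⟨n, hn, rfl⟩)).symm
    -- the action on the orbits
    have hcongr : ∀ g ∈ G, ∀ a b : Ω, (∃ n ∈ N, n a = b) ↔ ∃ n ∈ N, n (g a) = g b := by
      have h1 : ∀ g ∈ G, ∀ a b : Ω, (∃ n ∈ N, n a = b) → ∃ n ∈ N, n (g a) = g b := by
        rintro g hg a b ⟨n, hn, h⟩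
        refine ⟨g * n * g⁻¹, hnorm g hg n hn, ?_⟩
        show g (n (g⁻¹ (g a))) = g b
        have : g⁻¹ (g a) = a := g.symm_apply_apply a
        rw [this, h]
      intro g hg a b
      refine ⟨h1 g hg a b, fun h => ?_⟩
      have h2 := h1 g⁻¹ (G.inv_mem hg) _ _ h
      have e1 : g⁻¹ (g a) = a := g.symm_apply_apply a
      have e2 : g⁻¹ (g b) = b := g.symm_apply_apply b
      rwa [e1, e2] at h2
    let f : G →* Perm Q :=
      { toFun := fun g => Quotient.congr g.1 (hcongr g.1 g.2)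
        map_one' := by
          apply Equiv.ext
          intro q
          obtain ⟨ω, rfl⟩ := Quotient.exists_rep q
          rfl
        map_mul' := by
          intro a b
          apply Equiv.ext
          intro q
          obtain ⟨ω, rfl⟩ := Quotient.exists_rep q
          rfl }
    have hf : ∀ (g : G) (ω : Ω), f g (Quotient.mk r ω) = Quotient.mk r (g.1 ω) := fun _ _ => rfl
    have hsolv : Group.IsSolvable f.range := Group.isSolvable_of_surjective f.rangeRestrict_surjective
    obtain ⟨δ, hδ⟩ := ih Q (by omega) f.range hsolv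
    -- the torsors
    have htor : ∀ s : Q, ∃ (d : ℕ) (φ : {ω : Ω // Quotient.mk r ω = s} ≃ (Fin d → ZMod p)),
        ∀ n ∈ N, ∀ x y x' y' : {ω : Ω // Quotient.mk r ω = s}, n x.1 = x'.1 → n y.1 = y'.1 →
          φ x' - φ x = φ y' - φ y := by
      intro s
      obtain ⟨b, rfl⟩ := Quotient.exists_rep s
      obtain ⟨d, φ, h⟩ := exists_phi (p := p) hcomm hexp b
      let e : {ω : Ω // Quotient.mk r ω = Quotient.mk r b} ≃ {ω : Ω // ∃ n ∈ N, n b = ω} :=
        Equiv.subtypeEquivRight (fun ω => by rw [eq_comm, hmk])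
      refine ⟨d, e.trans φ, ?_⟩
      intro n hn x y x' y' h1 h2
      exact h n hn (e x) (e y) (e x') (e y') h1 h2
    choose d φ hφ using htor
    choose γm hγ1 hγ2 using model p
    let γ : Ω → Fin 3 := fun ω =>
      γm (d (Quotient.mk r ω)) (φ (Quotient.mk r ω) ⟨ω, rfl⟩) + δ (Quotient.mk r ω)
    have hγval : ∀ (s : Q) (x : {ω : Ω // Quotient.mk r ω = s}),
        γ x.1 = γm (d s) (φ s x) + δ s := by
      rintro s ⟨x, rfl⟩
      rfl
    refine ⟨γ, ?_⟩
    intro g hg hgγ
    -- `f g` preserves `δ`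
    have hfδ : ∀ s, δ (f ⟨g, hg⟩ s) = δ s := by
      intro s
      set s' := f ⟨g, hg⟩ s with hs'
      have hiff : ∀ ω : Ω, Quotient.mk r ω = s ↔ Quotient.mk r (g ω) = s' := by
        intro ω
        rw [← hf ⟨g, hg⟩ ω, hs']
        exact (f ⟨g, hg⟩).injective.eq_iff.symm
      have hcount : ∀ (s : Q) (c : Fin 3), Nat.card {ω : Ω // Quotient.mk r ω = s ∧ γ ω = c} =
          Nat.card {v : Fin (d s) → ZMod p // γm (d s) v = c - δ s} := by
        intro s c
        apply Nat.card_congr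
        refine Equiv.ofBijective (fun x => ⟨φ s ⟨x.1, x.2.1⟩, ?_⟩) ⟨?_, ?_⟩
        · rw [eq_sub_iff_add_eq, ← hγval]
          exact x.2.2
        · intro x y hxy
          have h1 := congrArg Subtype.val hxy
          have h2 := (φ s).injective h1
          have h3 := congrArg Subtype.val h2
          exact Subtype.ext h3
        · rintro ⟨v, hv⟩
          refine ⟨⟨((φ s).symm v).1, ((φ s).symm v).2, ?_⟩, ?_⟩
          · rw [hγval, (φ s).apply_symm_apply, hv, sub_add_cancel]
          · apply Subtype.ext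
            exact (φ s).apply_symm_apply v
      have hdim : d s = d s' := by
        have h1 : ∀ s, Nat.card {ω : Ω // Quotient.mk r ω = s} = p ^ d s := by
          intro s
          rw [Nat.card_congr (φ s), Nat.card_eq_fintype_card, Fintype.card_fun, ZMod.card,
            Fintype.card_fin]
        have h2 : Nat.card {ω : Ω // Quotient.mk r ω = s} =
            Nat.card {ω : Ω // Quotient.mk r ω = s'} := by
          apply Nat.card_congr
          exact g.subtypeEquiv hiff
        rw [h1, h1] at h2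
        exact Nat.pow_right_injective hp.two_le h2
      have heqc : ∀ c : Fin 3, Nat.card {ω : Ω // Quotient.mk r ω = s ∧ γ ω = c} =
          Nat.card {ω : Ω // Quotient.mk r ω = s' ∧ γ ω = c} := by
        intro c
        apply Nat.card_congr
        apply g.subtypeEquiv
        intro ω
        rw [hgγ, hiff]
      by_contra hne
      have key : ∀ (d1 d2 : ℕ), d1 = d2 → ∀ a b : Fin 3,
          (∀ c, Nat.card {v : Fin d1 → ZMod p // γm d1 v = c - a} =
            Nat.card {v : Fin d2 → ZMod p // γm d2 v = c - b}) → a = b := by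
        rintro d1 _ rfl a b hab
        by_contra hne
        obtain ⟨x, y, hxy⟩ := hγ1 d1
        exact hxy (shift_const (fun c => Nat.card {v : Fin d1 → ZMod p // γm d1 v = c}) a b hne
          hab x y)
      apply hne
      refine (key _ _ hdim (δ s) (δ s') fun c => ?_).symm
      rw [← hcount, ← hcount]
      exact heqc c
    obtain ⟨k, hk⟩ := hδ (f ⟨g, hg⟩) ⟨_, rfl⟩ hfδ
    refine ⟨k + 1, ?_⟩
    set h : Perm Ω := g ^ (2 ^ k) with hh
    have hhG : h ∈ G := G.pow_mem hg _
    have hfh : f ⟨h, hhG⟩ = 1 := by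
      have : (⟨h, hhG⟩ : G) = ⟨g, hg⟩ ^ (2 ^ k) := Subtype.ext rfl
      rw [this, map_pow]
      exact hk
    have hhs : ∀ ω, Quotient.mk r (h ω) = Quotient.mk r ω := by
      intro ω
      rw [← hf ⟨h, hhG⟩ ω, hfh]
      rfl
    have hhγ : ∀ ω, γ (h ω) = γ ω := by
      have : ∀ (j : ℕ) ω, γ ((g ^ j) ω) = γ ω := by
        intro j
        induction j with
        | zero => intro ω; rfl
        | succ j ihj =>
          intro ω
          rw [pow_succ]
          show γ ((g ^ j) (g ω)) = γ ω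
          rw [ihj, hgγ]
      exact this _
    have hhh : ∀ ω, h (h ω) = ω := by
      intro ω
      set s := Quotient.mk r ω with hs
      have hiff : ∀ ω : Ω, Quotient.mk r ω = s ↔ Quotient.mk r (h ω) = s := by
        intro ω
        rw [hhs]
      let hB : Perm {ω : Ω // Quotient.mk r ω = s} := h.subtypeEquiv hiff
      have hBval : ∀ x, (hB x).1 = h x.1 := fun x => rfl
      let g' : Perm (Fin (d s) → ZMod p) := (φ s).symm.trans (hB.trans (φ s))
      have hg' : ∀ x, g' (φ s x) = φ s (hB x) := by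
        intro x
        show φ s (hB ((φ s).symm (φ s x))) = φ s (hB x)
        rw [(φ s).symm_apply_apply]
      have hheap : ∀ x y z, g' (x - y + z) = g' x - g' y + g' z := by
        intro u v w
        obtain ⟨x, rfl⟩ := (φ s).surjective u
        obtain ⟨y, rfl⟩ := (φ s).surjective v
        obtain ⟨z, rfl⟩ := (φ s).surjective w
        -- an element of `N` mapping `y` to `x`
        obtain ⟨n, hn, hnyx⟩ := (hmk y.1 x.1).1 (y.2.trans x.2.symm)
        let t : {ω : Ω // Quotient.mk r ω = s} := ⟨n z.1, ((hmk _ _).2 ⟨n, hn, rfl⟩).symm.trans z.2⟩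
        have h1 := hφ s n hn y z x t hnyx rfl
        have ht : φ s x - φ s y + φ s z = φ s t := by
          rw [h1, sub_add_cancel]
        rw [ht, hg', hg', hg', hg']
        have h2 := hφ s (h * n * h⁻¹) (hnorm h hhG n hn) (hB y) (hB z) (hB x) (hB t) (by
          show h (n (h⁻¹ (h y.1))) = h x.1
          have : h⁻¹ (h y.1) = y.1 := h.symm_apply_apply _
          rw [this, hnyx]) (by
          show h (n (h⁻¹ (h z.1))) = h (n z.1)
          have : h⁻¹ (h z.1) = z.1 := h.symm_apply_apply _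
          rw [this])
        rw [h2, sub_add_cancel]
      have hcol : ∀ x, γm (d s) (g' x) = γm (d s) x := by
        intro u
        obtain ⟨x, rfl⟩ := (φ s).surjective u
        rw [hg']
        have h1 := hγval s x
        have h2 := hγval s (hB x)
        rw [hBval, hhγ, h1] at h2
        exact (add_right_cancel h2).symm
      have hfin := hγ2 (d s) g' hheap hcol (φ s ⟨ω, rfl⟩)
      rw [hg', hg'] at hfin
      have h3 := (φ s).injective hfin
      exact congrArg Subtype.val h3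
    rw [pow_succ, pow_mul, ← hh, pow_two]
    apply Equiv.ext
    intro ω
    exact hhh ω

end Q6.ThreeCol
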